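import Pool.Agent.Y558.MT.Ord

set_option autoImplicit false

/-!
# Functoriality of the canonical order
-/

namespace Pool.Agent.Y558.MT

open Pool.Agent.Y558.MR (Geo Btw)

theorem R_map {V M M' : Type} {d : V → V → ℕ} {prec : V → V → Prop} {lt : V → M → M → Prop}
    {lt' : V → M' → M' → Prop} {E : V → V → M → M → Prop} {E' : V → V → M' → M' → Prop}
    (φ : V ≃ V) (σ : M ≃ M') (hd : ∀ p q, d (φ p) (φ q) = d p q)
    (hp : ∀ p q, prec (φ p) (φ q) ↔ prec p q)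
    (hl : ∀ p m n, lt' (φ p) (σ m) (σ n) ↔ lt p m n)
    (hE : ∀ p q m n, E' (φ p) (φ q) (σ m) (σ n) ↔ E p q m n) (X Y : V × M) :
    R d prec lt' E' (φ X.1, σ X.2) (φ Y.1, σ Y.2) ↔ R d prec lt E X Y := by
  induction hn : d X.1 Y.1 using Nat.strong_induction_on generalizing X Y with
  | _ n ih =>
  subst hn
  have hb : ∀ p s q, MR.Btw d (φ p) (φ s) (φ q) ↔ MR.Btw d p s q := by
    intro p s q
    unfold MR.Btw
    simp only [hd]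
  rw [R.eq_def d prec lt' E', R.eq_def d prec lt E]
  simp only [hd, hl, hE, hp]
  have e1 : (∃ Z : V × M', ∃ _ : MR.Btw d (φ X.1) Z.1 (φ Y.1),
      R d prec lt' E' (φ X.1, σ X.2) Z ∧ R d prec lt' E' Z (φ Y.1, σ Y.2)) ↔
      (∃ Z : V × M, ∃ _ : MR.Btw d X.1 Z.1 Y.1, R d prec lt E X Z ∧ R d prec lt E Z Y) := by
    constructor
    · rintro ⟨⟨s, z⟩, h1, h2, h3⟩
      obtain ⟨s, rfl⟩ := φ.surjective s
      obtain ⟨z, rfl⟩ := σ.surjective z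
      have h1' := (hb _ _ _).1 h1
      obtain ⟨b1, b2, b3, b4, b5⟩ := h1'
      exact ⟨(s, z), ⟨b1, b2, b3, b4, b5⟩, (ih _ b2 X (s, z) rfl).1 h2,
        (ih _ b3 (s, z) Y rfl).1 h3⟩
    · rintro ⟨⟨s, z⟩, h1, h2, h3⟩
      have h1' := h1
      obtain ⟨b1, b2, b3, b4, b5⟩ := h1'
      exact ⟨(φ s, σ z), (hb _ _ _).2 h1, (ih _ b2 X (s, z) rfl).2 h2,
        (ih _ b3 (s, z) Y rfl).2 h3⟩
  have e2 : (∃ Z : V × M', ∃ _ : MR.Btw d (φ X.1) Z.1 (φ Y.1),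
      R d prec lt' E' (φ Y.1, σ Y.2) Z ∧ R d prec lt' E' Z (φ X.1, σ X.2)) ↔
      (∃ Z : V × M, ∃ _ : MR.Btw d X.1 Z.1 Y.1, R d prec lt E Y Z ∧ R d prec lt E Z X) := by
    constructor
    · rintro ⟨⟨s, z⟩, h1, h2, h3⟩
      obtain ⟨s, rfl⟩ := φ.surjective s
      obtain ⟨z, rfl⟩ := σ.surjective z
      have h1' := (hb _ _ _).1 h1
      obtain ⟨b1, b2, b3, b4, b5⟩ := h1'
      exact ⟨(s, z), ⟨b1, b2, b3, b4, b5⟩, (ih _ b4 Y (s, z) rfl).1 h2,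
        (ih _ b5 (s, z) X rfl).1 h3⟩
    · rintro ⟨⟨s, z⟩, h1, h2, h3⟩
      have h1' := h1
      obtain ⟨b1, b2, b3, b4, b5⟩ := h1'
      exact ⟨(φ s, σ z), (hb _ _ _).2 h1, (ih _ b4 Y (s, z) rfl).2 h2,
        (ih _ b5 (s, z) X rfl).2 h3⟩
  rw [e1, e2]

theorem R_rev {V M M' : Type} {d : V → V → ℕ} {prec : V → V → Prop} {lt : V → M → M → Prop}
    {lt' : V → M' → M' → Prop} {E : V → V → M → M → Prop} {E' : V → V → M' → M' → Prop}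
    (hG : Geo d prec)
    (φ : V ≃ V) (σ : M ≃ M') (hd : ∀ p q, d (φ p) (φ q) = d p q)
    (hp : ∀ p q, prec (φ p) (φ q) ↔ prec q p)
    (hl : ∀ p m n, lt' (φ p) (σ m) (σ n) ↔ lt p n m)
    (hE : ∀ p q m n, E' (φ p) (φ q) (σ m) (σ n) ↔ E q p n m) (X Y : V × M) :
    R d prec lt' E' (φ X.1, σ X.2) (φ Y.1, σ Y.2) ↔ R d prec lt E Y X := by
  induction hn : d X.1 Y.1 using Nat.strong_induction_on generalizing X Y with
  | _ n ih =>
  subst hn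
  have hs := hG.symm X.1 Y.1
  have hsep : ∀ X' Y' : V × M, d X'.1 Y'.1 = d X.1 Y.1 →
      (Sep d prec lt' E' (φ X'.1, σ X'.2) (φ Y'.1, σ Y'.2) ↔ Sep d prec lt E Y' X') := by
    intro X' Y' hXY
    constructor
    · rintro ⟨⟨s, z⟩, h1, h2, h3⟩
      obtain ⟨s, rfl⟩ := φ.surjective s
      obtain ⟨z, rfl⟩ := σ.surjective z
      have hb : MR.Btw d X'.1 s Y'.1 := by
        unfold MR.Btw at h1 ⊢
        simp only [hd] at h1
        exact h1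
      have hb' := hb
      obtain ⟨b1, b2, b3, b4, b5⟩ := hb
      rw [hXY] at b2 b3
      exact ⟨(s, z), hb'.swap hG, (ih _ b3 (s, z) Y' rfl).1 h3, (ih _ b2 X' (s, z) rfl).1 h2⟩
    · rintro ⟨⟨s, z⟩, h1, h2, h3⟩
      have hb := h1.swap hG
      have hb' := hb
      obtain ⟨b1, b2, b3, b4, b5⟩ := hb
      rw [hXY] at b2 b3
      refine ⟨(φ s, σ z), ?_, (ih _ b2 X' (s, z) rfl).2 h3, (ih _ b3 (s, z) Y' rfl).2 h2⟩
      unfold MR.Btw at hb' ⊢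
      simp only [hd]
      exact hb'
  have hd' : d (φ X.1) (φ Y.1) = d X.1 Y.1 := hd _ _
  rcases Nat.lt_or_ge (d X.1 Y.1) 2 with h | h
  · rcases Nat.eq_zero_or_pos (d X.1 Y.1) with h0 | h0
    · rw [R0 (X := (φ X.1, σ X.2)) (Y := (φ Y.1, σ Y.2)) (hd'.trans h0), R0 (hs ▸ h0)]
      have e : Y.1 = X.1 := (hG.eq_of _ _ h0).symm
      rw [e]
      exact hl _ _ _
    · have h1 : d X.1 Y.1 = 1 := by omega
      rw [R1 (X := (φ X.1, σ X.2)) (Y := (φ Y.1, σ Y.2)) (hd'.trans h1), R1 (hs ▸ h1)]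
      exact hE _ _ _ _
  · rw [R2 hG (X := (φ X.1, σ X.2)) (Y := (φ Y.1, σ Y.2)) (h.trans hd'.ge), R2 hG (hs ▸ h),
      hsep X Y rfl, hsep Y X hs.symm]
    show (_ ∨ (_ ∧ prec (φ X.1) (φ Y.1))) ↔ _
    rw [hp]

end Pool.Agent.Y558.MT
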