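import Pool.Agent.Y558.MR.Geo
import Pool.Agent.Y558.MT.Map
import Pool.Agent.Y558.MB.OutB

set_option autoImplicit false

/-!
# Coding linear orders with monotone and antitone relations by actions of the free group by
automorphisms and anti-automorphisms of linear orders
-/

namespace Pool.Agent.Y558.MT

open Pool.Agent.H566P (XG Isom)
open Pool.Agent.Y558.MR (Geo F dd pr geo dd_left dd_one of_ne_inv pr_left dd_self)

/-- the orientation character: the odd generators reverse -/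
def ch : F →* ℤˣ := FreeGroup.lift (fun i => if i % 2 = 0 then 1 else -1)

theorem ch_of (i : ℕ) : ch (FreeGroup.of i) = if i % 2 = 0 then 1 else -1 := FreeGroup.lift_apply_of

theorem ch_cases (p : F) : ch p = 1 ∨ ch p = -1 := Int.units_eq_one_or _

theorem neg_ne_one : (-1 : ℤˣ) ≠ 1 := by decide

/-- the twisted order of the group -/
def prt (p q : F) : Prop :=
  (ch p = 1 ∧ ch q ≠ 1) ∨ (ch p = 1 ∧ ch q = 1 ∧ pr p q) ∨ (ch p ≠ 1 ∧ ch q ≠ 1 ∧ pr q p)

theorem geot : Geo dd prt where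
  self := geo.self
  eq_of := geo.eq_of
  symm := geo.symm
  four := geo.four
  even := geo.even
  pirr p := by
    rintro (⟨h1, h2⟩ | ⟨_, _, h⟩ | ⟨_, _, h⟩)
    · exact h2 h1
    · exact geo.pirr _ h
    · exact geo.pirr _ h
  ptr p q r := by
    rintro (⟨h1, h2⟩ | ⟨h1, h2, h3⟩ | ⟨h1, h2, h3⟩) (⟨k1, k2⟩ | ⟨k1, k2, k3⟩ | ⟨k1, k2, k3⟩)
    · exact absurd k1 h2
    · exact absurd k1 h2
    · exact Or.inl ⟨h1, k2⟩
    · exact Or.inl ⟨h1, k2⟩
    · exact Or.inr (Or.inl ⟨h1, k2, geo.ptr _ _ _ h3 k3⟩)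
    · exact absurd h2 k1
    · exact absurd k1 h2
    · exact absurd k1 h2
    · exact Or.inr (Or.inr ⟨h1, k2, geo.ptr _ _ _ k3 h3⟩)
  ptot p q := by
    by_cases hp : ch p = 1 <;> by_cases hq : ch q = 1
    · rcases geo.ptot p q with h | h | h
      · exact Or.inl h
      · exact Or.inr (Or.inl (Or.inr (Or.inl ⟨hp, hq, h⟩)))
      · exact Or.inr (Or.inr (Or.inr (Or.inl ⟨hq, hp, h⟩)))
    · exact Or.inr (Or.inl (Or.inl ⟨hp, hq⟩))
    · exact Or.inr (Or.inr (Or.inl ⟨hq, hp⟩))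
    · rcases geo.ptot p q with h | h | h
      · exact Or.inl h
      · exact Or.inr (Or.inr (Or.inr (Or.inr ⟨hq, hp, h⟩)))
      · exact Or.inr (Or.inl (Or.inr (Or.inr ⟨hp, hq, h⟩)))

theorem ch_pos {g : F} (hg : ch g = 1) (p : F) : ch (g * p) = 1 ↔ ch p = 1 := by
  rw [map_mul, hg, one_mul]

theorem ch_neg {g : F} (hg : ch g ≠ 1) (p : F) : ch (g * p) = 1 ↔ ch p ≠ 1 := by
  have h1 : ch g = -1 := (ch_cases g).resolve_left hg
  rw [map_mul, h1]
  rcases ch_cases p with h | h <;> rw [h] <;> decide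

theorem prt_pos {g : F} (hg : ch g = 1) (p q : F) : prt (g * p) (g * q) ↔ prt p q := by
  unfold prt
  simp only [ne_eq, ch_pos hg, pr_left]

theorem prt_neg {g : F} (hg : ch g ≠ 1) (p q : F) : prt (g * p) (g * q) ↔ prt q p := by
  unfold prt
  simp only [ne_eq, ch_neg hg, pr_left, not_not]
  tauto

/-- structures: a binary relation, a sequence of binary relations, unary predicates -/
abbrev XM : Type := (ℕ → ℕ → Bool) × (ℕ → ℕ → ℕ → Bool) × (ℕ → ℕ → Bool)

/-- the relations with even number are decreasing in the first and increasing in the second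
argument, those with odd number are increasing in both arguments -/
structure MA (x : XM) : Prop where
  irr : ∀ m, x.1 m m = false
  tr : ∀ m n k, x.1 m n = true → x.1 n k = true → x.1 m k = true
  tot : ∀ m n, m = n ∨ x.1 m n = true ∨ x.1 n m = true
  down : ∀ i m m' n, i % 2 = 0 → x.1 m' m = true → x.2.1 i m n = true → x.2.1 i m' n = true
  up : ∀ i m m' n, i % 2 ≠ 0 → x.1 m m' = true → x.2.1 i m n = true → x.2.1 i m' n = true
  right : ∀ i m n n', x.1 n n' = true → x.2.1 i m n = true → x.2.1 i m n' = true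

def IsoM (σ : Equiv.Perm ℕ) (x y : XM) : Prop :=
  (∀ m n, y.1 (σ m) (σ n) = x.1 m n) ∧ (∀ i m n, y.2.1 i (σ m) (σ n) = x.2.1 i m n) ∧
    ∀ i m, y.2.2 i (σ m) = x.2.2 i m

/-- the order of the copy with number `p` -/
def ltx (x : XM) (p : F) (m n : ℕ) : Prop :=
  (ch p = 1 ∧ x.1 m n = true) ∨ (ch p ≠ 1 ∧ x.1 n m = true)

/-- the relation between neighbouring copies -/
def Ex (x : XM) (p q : F) (m n : ℕ) : Prop :=
  (∃ i : ℕ, p⁻¹ * q = (FreeGroup.of i)⁻¹ ∧ (ch q = 1 ↔ x.2.1 i m n = true)) ∨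
  (∃ i : ℕ, p⁻¹ * q = FreeGroup.of i ∧ (ch p = 1 ↔ ¬ x.2.1 i n m = true))

theorem Ex_inv {x : XM} {p q : F} {i : ℕ} (h : p⁻¹ * q = (FreeGroup.of i)⁻¹) (m n : ℕ) :
    Ex x p q m n ↔ (ch q = 1 ↔ x.2.1 i m n = true) := by
  constructor
  · rintro (⟨j, h1, h2⟩ | ⟨j, h1, -⟩)
    · rw [h] at h1
      have := FreeGroup.of_injective (inv_injective h1)
      rw [this]
      exact h2
    · rw [h] at h1
      exact absurd h1.symm (of_ne_inv _ _)
  · intro h1
    exact Or.inl ⟨i, h, h1⟩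

theorem Ex_of {x : XM} {p q : F} {i : ℕ} (h : p⁻¹ * q = FreeGroup.of i) (m n : ℕ) :
    Ex x p q m n ↔ (ch p = 1 ↔ ¬ x.2.1 i n m = true) := by
  constructor
  · rintro (⟨j, h1, -⟩ | ⟨j, h1, h2⟩)
    · rw [h] at h1
      exact absurd h1 (of_ne_inv _ _)
    · rw [h] at h1
      have := FreeGroup.of_injective h1
      rw [this]
      exact h2
  · intro h1
    exact Or.inr ⟨i, h, h1⟩

theorem loc {x : XM} (hx : MA x) : Loc dd (ltx x) (Ex x) where
  irr p m h := by
    rcases h with ⟨-, h⟩ | ⟨-, h⟩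
    · rw [hx.irr] at h
      exact absurd h (by decide)
    · rw [hx.irr] at h
      exact absurd h (by decide)
  tr p m n k h1 h2 := by
    rcases h1 with ⟨a, h1⟩ | ⟨a, h1⟩ <;> rcases h2 with ⟨b, h2⟩ | ⟨b, h2⟩
    · exact Or.inl ⟨a, hx.tr _ _ _ h1 h2⟩
    · exact absurd a b
    · exact absurd b a
    · exact Or.inr ⟨a, hx.tr _ _ _ h2 h1⟩
  tot p m n := by
    by_cases hp : ch p = 1
    · rcases hx.tot m n with h | h | h
      · exact Or.inl h
      · exact Or.inr (Or.inl (Or.inl ⟨hp, h⟩))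
      · exact Or.inr (Or.inr (Or.inl ⟨hp, h⟩))
    · rcases hx.tot m n with h | h | h
      · exact Or.inl h
      · exact Or.inr (Or.inr (Or.inr ⟨hp, h⟩))
      · exact Or.inr (Or.inl (Or.inr ⟨hp, h⟩))
  compl p q h m n := by
    obtain ⟨i, h1 | h1⟩ := dd_one h
    · have h2 : q⁻¹ * p = (FreeGroup.of i)⁻¹ := by
        rw [← h1]
        group
      rw [Ex_of h1, Ex_inv h2]
      tauto
    · have h2 : q⁻¹ * p = FreeGroup.of i := by
        rw [← inv_inv (FreeGroup.of i), ← h1]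
        group
      rw [Ex_inv h1, Ex_of h2]
      tauto
  left p q h m m' n h1 h2 := by
    obtain ⟨i, h3 | h3⟩ := dd_one h
    · rw [Ex_of h3] at h2 ⊢
      rcases h1 with ⟨a, h1⟩ | ⟨a, h1⟩
      · have h4 := hx.right i n m' m h1
        tauto
      · have h4 := hx.right i n m m' h1
        tauto
    · rw [Ex_inv h3] at h2 ⊢
      have hp : p = q * FreeGroup.of i := by
        rw [eq_comm, ← inv_inv (FreeGroup.of i), ← h3]
        group
      by_cases hi : i % 2 = 0
      · have hpq : ch p = 1 ↔ ch q = 1 := by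
          rw [hp, map_mul, ch_of, if_pos hi, mul_one]
        rcases h1 with ⟨a, h1⟩ | ⟨a, h1⟩
        · have h4 := hx.down i m m' n hi h1
          tauto
        · have h4 := hx.down i m' m n hi h1
          tauto
      · have hpq : ch p = 1 ↔ ch q ≠ 1 := by
          rw [hp, map_mul, ch_of, if_neg hi]
          rcases ch_cases q with h | h <;> rw [h] <;> decide
        rcases h1 with ⟨a, h1⟩ | ⟨a, h1⟩
        · have h4 := hx.up i m' m n hi h1
          tauto
        · have h4 := hx.up i m m' n hi h1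
          tauto

/-- the canonical order of a structure -/
def RR (x : XM) (X Y : F × ℕ) : Prop := R dd prt (ltx x) (Ex x) X Y

theorem RR_pos (x : XM) {g : F} (hg : ch g = 1) (X Y : F × ℕ) :
    RR x (g * X.1, X.2) (g * Y.1, Y.2) ↔ RR x X Y := by
  refine R_map (Equiv.mulLeft g) (Equiv.refl ℕ) (fun p q => dd_left g p q)
    (fun p q => prt_pos hg p q) (fun p m n => ?_) (fun p q m n => ?_) X Y
  · show ltx x (g * p) m n ↔ ltx x p m n
    unfold ltx
    simp only [ne_eq, ch_pos hg]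
  · show Ex x (g * p) (g * q) m n ↔ Ex x p q m n
    have e : (g * p)⁻¹ * (g * q) = p⁻¹ * q := by group
    unfold Ex
    simp only [e, ch_pos hg]

theorem RR_neg (x : XM) {g : F} (hg : ch g ≠ 1) (X Y : F × ℕ) :
    RR x (g * X.1, X.2) (g * Y.1, Y.2) ↔ RR x Y X := by
  refine R_rev geot (Equiv.mulLeft g) (Equiv.refl ℕ) (fun p q => dd_left g p q)
    (fun p q => prt_neg hg p q) (fun p m n => ?_) (fun p q m n => ?_) X Y
  · show ltx x (g * p) m n ↔ ltx x p n m
    unfold ltx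
    simp only [ne_eq, ch_neg hg, not_not]
    tauto
  · show Ex x (g * p) (g * q) m n ↔ Ex x q p n m
    have e : (g * p)⁻¹ * (g * q) = p⁻¹ * q := by group
    have e2 : q⁻¹ * p = (p⁻¹ * q)⁻¹ := by group
    unfold Ex
    simp only [e, e2, ch_neg hg, inv_inj, inv_eq_iff_eq_inv]
    constructor
    · rintro (⟨i, h1, h2⟩ | ⟨i, h1, h2⟩)
      · exact Or.inr ⟨i, h1, by tauto⟩
      · exact Or.inl ⟨i, h1, by tauto⟩
    · rintro (⟨i, h1, h2⟩ | ⟨i, h1, h2⟩)
      · exact Or.inr ⟨i, h1, by tauto⟩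
      · exact Or.inl ⟨i, h1, by tauto⟩

theorem RR_iso {x y : XM} {σ : Equiv.Perm ℕ} (h : IsoM σ x y) (X Y : F × ℕ) :
    RR y (X.1, σ X.2) (Y.1, σ Y.2) ↔ RR x X Y := by
  refine R_map (Equiv.refl F) σ (fun p q => rfl)
    (fun p q => Iff.rfl) (fun p m n => ?_) (fun p q m n => ?_) X Y
  · show ltx y p (σ m) (σ n) ↔ ltx x p m n
    unfold ltx
    simp only [h.1]
  · show Ex y p q (σ m) (σ n) ↔ Ex x p q m n
    unfold Ex
    simp only [h.2.1]

theorem RR_same (x : XM) (m n : ℕ) : RR x (1, m) (1, n) ↔ x.1 m n = true := by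
  unfold RR
  rw [R0 (dd_self 1)]
  unfold ltx
  simp

theorem RR_gen (x : XM) (i m n : ℕ) :
    RR x (FreeGroup.of i, m) (1, n) ↔ x.2.1 i m n = true := by
  have e : (FreeGroup.of i : F)⁻¹ * 1 = (FreeGroup.of i)⁻¹ := mul_one _
  have hd : dd (FreeGroup.of i) 1 = 1 := by
    unfold dd
    rw [e, FreeGroup.norm_inv_eq, FreeGroup.norm_of]
  unfold RR
  rw [R1 hd, Ex_inv e]
  simp

end Pool.Agent.Y558.MT
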