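import Pool.Agent.Y558.MT.Code

set_option autoImplicit false

/-!
# The encoding map
-/

namespace Pool.Agent.Y558.MT

open Pool.Agent.H566P (XG Isom)
open Pool.Agent.Y558.MR (F)
open Set

instance : Infinite F := inferInstance

/-- a fixed numbering of `F × ℕ` -/
noncomputable def ee : ℕ ≃ F × ℕ := (nonempty_equiv_of_countable (α := ℕ) (β := F × ℕ)).some

/-- a structure together with a numbering of `F × ℕ` (through the fixed numbering `ee`) -/
abbrev WX : Type := XM × (ℕ → ℕ) × (ℕ → ℕ)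

/-- the number of an element -/
noncomputable def sS (w : WX) (X : F × ℕ) : ℕ := w.2.1 (ee.symm X)
/-- the element with a given number -/
noncomputable def tT (w : WX) (a : ℕ) : F × ℕ := ee (w.2.2 a)

open Classical in
/-- the encoding -/
noncomputable def Enc (w : WX) : XG F :=
  (fun a b => decide (RR w.1 (tT w a) (tT w b)),
   fun γ a => sS w (γ * (tT w a).1, (tT w a).2),
   fun i a => match i with
    | 0 => decide ((tT w a).1 = 1)
    | i + 1 => w.1.2.2 i (tT w a).2)

structure Good (w : WX) : Prop where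
  st : ∀ a, sS w (tT w a) = a
  ts : ∀ X, tT w (sS w X) = X

theorem Enc_lt (w : WX) (a b : ℕ) : (Enc w).1 a b = true ↔ RR w.1 (tT w a) (tT w b) := by
  simp [Enc]

theorem Enc_act (w : WX) (γ : F) (a : ℕ) :
    (Enc w).2.1 γ a = sS w (γ * (tT w a).1, (tT w a).2) := rfl

theorem Enc_zero (w : WX) (a : ℕ) : (Enc w).2.2 0 a = true ↔ (tT w a).1 = 1 := by
  simp [Enc]

theorem Enc_succ (w : WX) (i a : ℕ) : (Enc w).2.2 (i + 1) a = w.1.2.2 i (tT w a).2 := rfl

/-- the number of `(1, m)` -/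
noncomputable def pt (w : WX) (m : ℕ) : ℕ := sS w (1, m)

theorem pt_inj {w : WX} (hw : Good w) : Function.Injective (pt w) := by
  intro m n h
  have h1 := congrArg (tT w) h
  unfold pt at h1
  rw [hw.ts, hw.ts] at h1
  exact (Prod.ext_iff.1 h1).2

theorem tT_pt {w : WX} (hw : Good w) (m : ℕ) : tT w (pt w m) = (1, m) := hw.ts _

theorem range_pt {w : WX} (hw : Good w) : range (pt w) = {a | (Enc w).2.2 0 a = true} := by
  ext a
  constructor
  · rintro ⟨m, rfl⟩
    show (Enc w).2.2 0 (pt w m) = true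
    rw [Enc_zero, tT_pt hw]
  · intro h
    have h' : (Enc w).2.2 0 a = true := h
    rw [Enc_zero] at h'
    refine ⟨(tT w a).2, ?_⟩
    unfold pt
    rw [← h']
    exact hw.st a

theorem act_pt {w : WX} (hw : Good w) (γ : F) (m : ℕ) : (Enc w).2.1 γ (pt w m) = sS w (γ, m) := by
  rw [Enc_act, tT_pt hw, mul_one]

theorem lt_pt {w : WX} (hw : Good w) (m n : ℕ) : (Enc w).1 (pt w m) (pt w n) = w.1.1 m n := by
  rw [Bool.eq_iff_iff, Enc_lt, tT_pt hw, tT_pt hw]
  exact RR_same _ _ _

theorem rel_pt {w : WX} (hw : Good w) (i m n : ℕ) :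
    (Enc w).1 ((Enc w).2.1 (FreeGroup.of i) (pt w m)) (pt w n) = w.1.2.1 i m n := by
  rw [Bool.eq_iff_iff, Enc_lt, act_pt hw, hw.ts, tT_pt hw]
  exact RR_gen _ _ _ _

theorem un_pt {w : WX} (hw : Good w) (i m : ℕ) : (Enc w).2.2 (i + 1) (pt w m) = w.1.2.2 i m := by
  rw [Enc_succ, tT_pt hw]

/-- the encoded structures are linear orders with an action -/
theorem Enc_TW {w : WX} (hw : Good w) (hx : MA w.1) : Pool.Agent.Y558.MB.TW ch (Enc w) where
  irr m := by
    rw [← Bool.not_eq_true, Enc_lt]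
    exact R_irr geot (loc hx) _
  tr m n k h1 h2 := by
    rw [Enc_lt] at h1 h2 ⊢
    exact R_tr geot (loc hx) _ _ _ h1 h2
  tot m n := by
    rcases R_tot geot (loc hx) (tT w m) (tT w n) with h | h | h
    · left
      rw [← hw.st m, ← hw.st n, h]
    · right; left
      rw [Enc_lt]
      exact h
    · right; right
      rw [Enc_lt]
      exact h
  one m := by
    rw [Enc_act, one_mul]
    exact hw.st m
  mul γ δ m := by
    rw [Enc_act, Enc_act w γ, Enc_act w δ, hw.ts, mul_assoc]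
  mono γ m n hγ h := by
    rw [Enc_lt] at h ⊢
    rw [Enc_act, Enc_act, hw.ts, hw.ts]
    exact (RR_pos _ hγ _ _).2 h
  anti γ m n hγ h := by
    rw [Enc_lt] at h ⊢
    rw [Enc_act, Enc_act, hw.ts, hw.ts]
    exact (RR_neg _ hγ _ _).2 h

/-- isomorphic codes come from isomorphic structures -/
theorem iso_of_Enc {w w' : WX} (hw : Good w) (hw' : Good w') {σ : Equiv.Perm ℕ}
    (h : Isom σ (Enc w) (Enc w')) : ∃ π : Equiv.Perm ℕ, IsoM π w.1 w'.1 := by
  have hmem : ∀ m, ∃ n, pt w' n = σ (pt w m) := by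
    intro m
    have h1 : σ (pt w m) ∈ range (pt w') := by
      rw [range_pt hw']
      show (Enc w').2.2 0 (σ (pt w m)) = true
      rw [h.2.2, Enc_zero, tT_pt hw]
    exact h1
  have hmem' : ∀ n, ∃ m, σ (pt w m) = pt w' n := by
    intro n
    have h1 : σ.symm (pt w' n) ∈ range (pt w) := by
      rw [range_pt hw]
      show (Enc w).2.2 0 (σ.symm (pt w' n)) = true
      rw [← h.2.2, Equiv.apply_symm_apply, Enc_zero, tT_pt hw']
    obtain ⟨m, hm⟩ := h1
    exact ⟨m, by rw [hm, Equiv.apply_symm_apply]⟩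
  choose π hπ using hmem
  have hinj : Function.Injective π := by
    intro m n hmn
    apply pt_inj hw
    apply σ.injective
    rw [← hπ m, ← hπ n, hmn]
  have hsurj : Function.Surjective π := by
    intro n
    obtain ⟨m, hm⟩ := hmem' n
    exact ⟨m, pt_inj hw' (by rw [hπ, hm])⟩
  refine ⟨Equiv.ofBijective π ⟨hinj, hsurj⟩, ?_, ?_, ?_⟩
  · intro m n
    show w'.1.1 (π m) (π n) = _
    rw [← lt_pt hw', ← lt_pt hw, hπ, hπ, h.1]
  · intro i m n
    show w'.1.2.1 i (π m) (π n) = _
    rw [← rel_pt hw', ← rel_pt hw, hπ, hπ, h.2.1, h.1]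
  · intro i m
    show w'.1.2.2 i (π m) = _
    rw [← un_pt hw', ← un_pt hw, hπ, h.2.2]

/-- pulling back a structure along a permutation -/
def pull (π : Equiv.Perm ℕ) (x : XM) : XM :=
  (fun m n => x.1 (π m) (π n), fun i m n => x.2.1 i (π m) (π n), fun i m => x.2.2 i (π m))

theorem pull_iso (π : Equiv.Perm ℕ) (x : XM) : IsoM π (pull π x) x :=
  ⟨fun _ _ => rfl, fun _ _ _ => rfl, fun _ _ => rfl⟩

theorem IsoM_symm {σ : Equiv.Perm ℕ} {x y : XM} (h : IsoM σ x y) : IsoM σ.symm y x := by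
  refine ⟨fun m n => ?_, fun i m n => ?_, fun i m => ?_⟩
  · rw [← h.1, Equiv.apply_symm_apply, Equiv.apply_symm_apply]
  · rw [← h.2.1, Equiv.apply_symm_apply, Equiv.apply_symm_apply]
  · rw [← h.2.2, Equiv.apply_symm_apply]

/-- transporting a coded structure along a permutation -/
noncomputable def transp (σ π : Equiv.Perm ℕ) (w : WX) : WX :=
  (pull π w.1, fun a => σ (sS w ((ee a).1, π (ee a).2)),
    fun a => ee.symm ((tT w (σ.symm a)).1, π.symm (tT w (σ.symm a)).2))

theorem sS_transp (σ π : Equiv.Perm ℕ) (w : WX) (X : F × ℕ) :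
    sS (transp σ π w) X = σ (sS w (X.1, π X.2)) := by
  show σ (sS w ((ee (ee.symm X)).1, π (ee (ee.symm X)).2)) = _
  rw [Equiv.apply_symm_apply]

theorem tT_transp (σ π : Equiv.Perm ℕ) (w : WX) (a : ℕ) :
    tT (transp σ π w) a = ((tT w (σ.symm a)).1, π.symm (tT w (σ.symm a)).2) := by
  show ee (ee.symm _) = _
  rw [Equiv.apply_symm_apply]

theorem transp_good (σ π : Equiv.Perm ℕ) {w : WX} (hw : Good w) : Good (transp σ π w) where
  st a := by
    rw [sS_transp, tT_transp]
    simp only [Equiv.apply_symm_apply]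
    show σ (sS w (tT w (σ.symm a))) = a
    rw [hw.st, Equiv.apply_symm_apply]
  ts X := by
    rw [tT_transp, sS_transp, Equiv.symm_apply_apply, hw.ts]
    simp only [Equiv.symm_apply_apply]

theorem transp_isom (σ π : Equiv.Perm ℕ) {w : WX} (hw : Good w) :
    Isom σ (Enc w) (Enc (transp σ π w)) := by
  refine ⟨fun a b => ?_, fun γ a => ?_, fun i a => ?_⟩
  · rw [Bool.eq_iff_iff, Enc_lt, Enc_lt, tT_transp, tT_transp, Equiv.symm_apply_apply,
      Equiv.symm_apply_apply]
    exact RR_iso (IsoM_symm (pull_iso π w.1)) (tT w a) (tT w b)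
  · rw [Enc_act, Enc_act, tT_transp, sS_transp, Equiv.symm_apply_apply]
    simp only [Equiv.apply_symm_apply]
  · rcases i with _ | i
    · rw [Bool.eq_iff_iff, Enc_zero, Enc_zero, tT_transp, Equiv.symm_apply_apply]
    · rw [Enc_succ, Enc_succ, tT_transp, Equiv.symm_apply_apply]
      show w.1.2.2 i (π (π.symm (tT w a).2)) = _
      rw [Equiv.apply_symm_apply]

theorem isom_unique {Γ : Type} {σ : Equiv.Perm ℕ} {x y z : XG Γ} (h1 : Isom σ x y)
    (h2 : Isom σ x z) : y = z := by
  refine Prod.ext ?_ (Prod.ext ?_ ?_)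
  · funext a b
    obtain ⟨a, rfl⟩ := σ.surjective a
    obtain ⟨b, rfl⟩ := σ.surjective b
    rw [h1.1, h2.1]
  · funext γ a
    obtain ⟨a, rfl⟩ := σ.surjective a
    rw [h1.2.1, h2.2.1]
  · funext i a
    obtain ⟨a, rfl⟩ := σ.surjective a
    rw [h1.2.2, h2.2.2]

/-- an injective sequence becomes strictly increasing after a permutation -/
theorem sort_perm (f : ℕ → ℕ) (hf : Function.Injective f) :
    ∃ π : Equiv.Perm ℕ, StrictMono (fun m => f (π m)) := by
  classical
  haveI : Infinite (range f) := Infinite.of_injective (fun n => (⟨f n, n, rfl⟩ : range f))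
    (fun a b h => hf (congrArg Subtype.val h))
  let g : ℕ ≃o range f := Nat.Subtype.orderIsoOfNat (range f)
  refine ⟨g.toEquiv.trans (Equiv.ofInjective f hf).symm, ?_⟩
  intro m n hmn
  have h1 : ∀ k, f ((g.toEquiv.trans (Equiv.ofInjective f hf).symm) k) = (g k : ℕ) := by
    intro k
    show f ((Equiv.ofInjective f hf).symm (g k)) = _
    exact Equiv.apply_ofInjective_symm hf (g k)
  show f _ < f _
  rw [h1, h1]
  exact g.strictMono hmn

end Pool.Agent.Y558.MT
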