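import Pool.Agent.Y558.MT.Enc

set_option autoImplicit false

/-!
# The dichotomy for linear orders with monotone relations
-/

namespace Pool.Agent.Y558.MT

open Pool.Agent.H566P (XG Isom)
open Set MeasureTheory
open Pool.Agent.Y558.MR (F dd pr)

theorem meas_dep {W : Type} [MeasurableSpace W] {ι : Type} [Countable ι] [MeasurableSpace ι]
    [MeasurableSingletonClass ι] {f : W → ι} (hf : Measurable f) {p : ι → W → Prop}
    (hp : ∀ i, Measurable (p i)) : Measurable (fun w => p (f w) w) := by
  have e : (fun w => p (f w) w) = fun w => ∃ i, f w = i ∧ p i w := by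
    funext w
    exact propext ⟨fun h => ⟨_, rfl, h⟩, by rintro ⟨i, rfl, h⟩; exact h⟩
  rw [e]
  refine Measurable.exists fun i => Measurable.and ?_ (hp i)
  exact measurableSet_setOfPred.1 (hf (measurableSet_singleton i))

theorem meas_beq {W : Type} [MeasurableSpace W] {f : W → Bool} (hf : Measurable f) :
    Measurable (fun w => f w = true) :=
  measurableSet_setOfPred.1 (hf (measurableSet_singleton true))

theorem meas_neq {W : Type} [MeasurableSpace W] {f : W → ℕ} (hf : Measurable f) (n : ℕ) :
    Measurable (fun w => f w = n) :=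
  measurableSet_setOfPred.1 (hf (measurableSet_singleton n))

theorem meas_o (m n : ℕ) : Measurable (fun x : XM => x.1 m n = true) :=
  meas_beq ((measurable_pi_apply n).comp ((measurable_pi_apply m).comp measurable_fst))

theorem meas_lt (p : F) (m n : ℕ) : Measurable (fun x : XM => ltx x p m n) := by
  unfold ltx
  exact (measurable_const.and (meas_o m n)).or (measurable_const.and (meas_o n m))

theorem meas_rel (i m n : ℕ) : Measurable (fun x : XM => x.2.1 i m n = true) :=
  meas_beq ((measurable_pi_apply n).comp ((measurable_pi_apply m).comp ((measurable_pi_apply i).comp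
    (measurable_fst.comp measurable_snd))))

theorem meas_Ex (p q : F) (m n : ℕ) : Measurable (fun x : XM => Ex x p q m n) := by
  unfold Ex
  exact (Measurable.exists fun i => measurable_const.and (measurable_const.iff (meas_rel i m n))).or
    (Measurable.exists fun i => measurable_const.and (measurable_const.iff (meas_rel i n m).not))

theorem meas_RR (X Y : F × ℕ) : Measurable (fun x : XM => RR x X Y) := by
  induction hn : dd X.1 Y.1 using Nat.strong_induction_on generalizing X Y with
  | _ n ih =>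
  subst hn
  have e : (fun x : XM => RR x X Y) = fun x => ((dd X.1 Y.1 = 0 ∧ ltx x X.1 X.2 Y.2) ∨
      (dd X.1 Y.1 = 1 ∧ Ex x X.1 Y.1 X.2 Y.2) ∨
      (2 ≤ dd X.1 Y.1 ∧
        ((∃ Z : F × ℕ, ∃ _ : MR.Btw dd X.1 Z.1 Y.1, RR x X Z ∧ RR x Z Y) ∨
          ((¬ ∃ Z : F × ℕ, ∃ _ : MR.Btw dd X.1 Z.1 Y.1, RR x Y Z ∧ RR x Z X) ∧ prt X.1 Y.1)))) := by
    funext x
    unfold RR
    rw [R.eq_def]
  rw [e]
  refine Measurable.or (measurable_const.and (meas_lt _ _ _)) (Measurable.or
    (measurable_const.and (meas_Ex _ _ _ _)) (measurable_const.and (Measurable.or ?_ ?_)))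
  · refine Measurable.exists fun Z => Measurable.exists fun h => ?_
    obtain ⟨h1, h2, h3, h4, h5⟩ := h
    exact (ih _ h2 X Z rfl).and (ih _ h3 Z Y rfl)
  · refine Measurable.and (Measurable.not ?_) measurable_const
    refine Measurable.exists fun Z => Measurable.exists fun h => ?_
    obtain ⟨h1, h2, h3, h4, h5⟩ := h
    exact (ih _ h4 Y Z rfl).and (ih _ h5 Z X rfl)

theorem meas_s (a : ℕ) : Measurable (fun w : WX => w.2.1 a) :=
  (measurable_pi_apply a).comp (measurable_fst.comp measurable_snd)

theorem meas_t (a : ℕ) : Measurable (fun w : WX => w.2.2 a) :=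
  (measurable_pi_apply a).comp (measurable_snd.comp measurable_snd)

theorem meas_Enc : Measurable Enc := by
  refine Measurable.prodMk ?_ (Measurable.prodMk ?_ ?_)
  · refine measurable_pi_iff.2 fun a => measurable_pi_iff.2 fun b => measurable_to_bool ?_
    have e : (fun w : WX => (Enc w).1 a b) ⁻¹' {true} = {w | RR w.1 (tT w a) (tT w b)} := by
      ext w
      exact Enc_lt w a b
    show MeasurableSet ((fun w : WX => (Enc w).1 a b) ⁻¹' {true})
    rw [e]
    refine measurableSet_setOfPred.2 ?_
    have h1 : ∀ j : ℕ, Measurable (fun w : WX => RR w.1 (ee j) (tT w b)) := by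
      intro j
      exact meas_dep (p := fun k (w : WX) => RR w.1 (ee j) (ee k)) (meas_t b)
        (fun k => (meas_RR (ee j) (ee k)).comp measurable_fst)
    exact meas_dep (p := fun j (w : WX) => RR w.1 (ee j) (tT w b)) (meas_t a) h1
  · refine measurable_pi_iff.2 fun γ => measurable_pi_iff.2 fun a => measurable_to_countable' ?_
    intro n
    refine measurableSet_setOfPred.2 ?_
    exact meas_dep (p := fun j (w : WX) => sS w (γ * (ee j).1, (ee j).2) = n) (meas_t a)
      (fun k => meas_neq (meas_s _) n)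
  · refine measurable_pi_iff.2 fun i => measurable_pi_iff.2 fun a => measurable_to_bool ?_
    rcases i with _ | i
    · have e : (fun w : WX => (Enc w).2.2 0 a) ⁻¹' {true} = {w | (tT w a).1 = 1} := by
        ext w
        exact Enc_zero w a
      show MeasurableSet ((fun w : WX => (Enc w).2.2 0 a) ⁻¹' {true})
      rw [e]
      refine measurableSet_setOfPred.2 ?_
      exact meas_dep (p := fun j (w : WX) => (ee j).1 = 1) (meas_t a)
        (fun k => measurable_const)
    · show MeasurableSet {w : WX | w.1.2.2 i (tT w a).2 = true}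
      refine measurableSet_setOfPred.2 ?_
      refine meas_dep (p := fun j (w : WX) => w.1.2.2 i (ee j).2 = true) (meas_t a)
        (fun k => meas_beq ?_)
      exact (measurable_pi_apply _).comp ((measurable_pi_apply _).comp
        (measurable_snd.comp (measurable_snd.comp measurable_fst)))

/-- the domain on which the encoding is injective -/
def Dom (B : Set XM) : Set WX := {w | w.1 ∈ B ∧ Good w ∧ StrictMono (pt w)}

theorem meas_Dom {B : Set XM} (hB : MeasurableSet B) : MeasurableSet (Dom B) := by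
  refine measurableSet_setOfPred.2 ?_
  refine Measurable.and (measurableSet_setOfPred.1 (measurable_fst hB)) (Measurable.and ?_ ?_)
  · have e : (Good : WX → Prop) = fun w => ((∀ a, sS w (tT w a) = a) ∧
        ∀ X : F × ℕ, tT w (sS w X) = X) := by
      funext w
      exact propext ⟨fun h => ⟨h.1, h.2⟩, fun h => ⟨h.1, h.2⟩⟩
    rw [e]
    refine Measurable.and (Measurable.forall fun a => ?_) (Measurable.forall fun X => ?_)
    · exact meas_dep (p := fun j (w : WX) => sS w (ee j) = a) (meas_t a)
        (fun k => meas_neq (meas_s _) a)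
    · refine meas_dep (p := fun j (w : WX) => tT w j = X) (meas_s _) (fun k => ?_)
      have e2 : (fun w : WX => tT w k = X) = fun w => w.2.2 k = ee.symm X := by
        funext w
        exact propext ⟨fun h => by rw [← h]; exact (ee.symm_apply_apply _).symm,
          fun h => by unfold tT; rw [h, Equiv.apply_symm_apply]⟩
      rw [e2]
      exact meas_neq (meas_t k) _
  · have e : (fun w : WX => StrictMono (pt w)) = fun w => ∀ m n : ℕ, m < n → pt w m < pt w n := by
      funext w
      exact propext ⟨fun h m n hmn => h hmn, fun h m n hmn => h m n hmn⟩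
    rw [e]
    refine Measurable.forall fun m => Measurable.forall fun n => Measurable.imp measurable_const ?_
    refine measurableSet_setOfPred.1 (measurableSet_lt (meas_s _) (meas_s _))

theorem inj_Enc (B : Set XM) : InjOn Enc (Dom B) := by
  rintro w ⟨-, hw, hm⟩ w' ⟨-, hw', hm'⟩ h
  have hpt : pt w = pt w' := by
    rw [← hm.range_inj hm', range_pt hw, range_pt hw', h]
  have hs : ∀ X : F × ℕ, sS w X = sS w' X := by
    rintro ⟨γ, m⟩
    rw [← act_pt hw, ← act_pt hw', h, hpt]
  have hx : w.1 = w'.1 := by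
    refine Prod.ext ?_ (Prod.ext ?_ ?_)
    · funext m n
      rw [← lt_pt hw, ← lt_pt hw', h, hpt]
    · funext i m n
      rw [← rel_pt hw, ← rel_pt hw', h, hpt]
    · funext i m
      rw [← un_pt hw, ← un_pt hw', h, hpt]
  refine Prod.ext hx (Prod.ext ?_ ?_)
  · funext a
    have := hs (ee a)
    unfold sS at this
    rw [Equiv.symm_apply_apply] at this
    exact this
  · funext a
    have h1 : tT w a = tT w' a := by
      rw [← hw.ts (tT w' a), hs, hw'.st]
    exact ee.injective h1

/-- the coded class -/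
def BB (B : Set XM) : Set (XG F) := Enc '' Dom B

theorem meas_BB {B : Set XM} (hB : MeasurableSet B) : MeasurableSet (BB B) :=
  (meas_Dom hB).image_of_measurable_injOn meas_Enc (inj_Enc B)

theorem inv_BB {B : Set XM} (hi : ∀ x ∈ B, ∀ (y : XM) (σ : Equiv.Perm ℕ), IsoM σ x y → y ∈ B) :
    ∀ x ∈ BB B, ∀ (y : XG F) (σ : Equiv.Perm ℕ), Isom σ x y → y ∈ BB B := by
  rintro _ ⟨w, ⟨hwB, hw, -⟩, rfl⟩ y σ hy
  obtain ⟨π, hπ⟩ := sort_perm (fun m => σ (pt w m)) (σ.injective.comp (pt_inj hw))
  refine ⟨transp σ π w, ⟨?_, transp_good σ π hw, ?_⟩, isom_unique (transp_isom σ π hw) hy⟩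
  · exact hi _ hwB _ _ (IsoM_symm (pull_iso π w.1))
  · intro m n hmn
    have h1 : ∀ k, pt (transp σ π w) k = σ (pt w (π k)) := fun k => sS_transp σ π w (1, k)
    rw [h1, h1]
    exact hπ hmn

/-- every structure of the class has a code -/
theorem exists_code {B : Set XM} {x : XM}
    (hi : ∀ x ∈ B, ∀ (y : XM) (σ : Equiv.Perm ℕ), IsoM σ x y → y ∈ B) (hx : x ∈ B) :
    ∃ w ∈ Dom B, ∃ π : Equiv.Perm ℕ, IsoM π w.1 x := by
  set w0 : WX := (x, id, id) with hw0
  have hg : Good w0 := ⟨fun a => ee.symm_apply_apply a, fun X => ee.apply_symm_apply X⟩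
  obtain ⟨π, hπ⟩ := sort_perm (pt w0) (pt_inj hg)
  refine ⟨transp (Equiv.refl ℕ) π w0, ⟨?_, transp_good _ π hg, ?_⟩, π, pull_iso π x⟩
  · exact hi _ hx _ _ (IsoM_symm (pull_iso π x))
  · intro m n hmn
    have h1 : ∀ k, pt (transp (Equiv.refl ℕ) π w0) k = pt w0 (π k) :=
      fun k => sS_transp (Equiv.refl ℕ) π w0 (1, k)
    rw [h1, h1]
    exact hπ hmn

theorem IsoM_trans {σ τ : Equiv.Perm ℕ} {x y z : XM} (h1 : IsoM σ x y) (h2 : IsoM τ y z) :
    IsoM (σ.trans τ) x z := by
  refine ⟨fun m n => ?_, fun i m n => ?_, fun i m => ?_⟩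
  · rw [← h1.1, ← h2.1]
    rfl
  · rw [← h1.2.1, ← h2.2.1]
    rfl
  · rw [← h1.2.2, ← h2.2.2]
    rfl

theorem Isom_symm {σ : Equiv.Perm ℕ} {x y : XG F} (h : Isom σ x y) : Isom σ.symm y x := by
  refine ⟨fun m n => ?_, fun γ m => ?_, fun i m => ?_⟩
  · rw [← h.1, Equiv.apply_symm_apply, Equiv.apply_symm_apply]
  · apply σ.injective
    rw [← h.2.1, Equiv.apply_symm_apply, Equiv.apply_symm_apply]
  · rw [← h.2.2, Equiv.apply_symm_apply]

theorem Isom_trans {σ τ : Equiv.Perm ℕ} {x y z : XG F} (h1 : Isom σ x y) (h2 : Isom τ y z) :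
    Isom (σ.trans τ) x z := by
  refine ⟨fun m n => ?_, fun γ m => ?_, fun i m => ?_⟩
  · rw [← h1.1, ← h2.1]
    rfl
  · show z.2.1 γ (τ (σ m)) = τ (σ (x.2.1 γ m))
    rw [h2.2.1, h1.2.1]
  · rw [← h1.2.2, ← h2.2.2]
    rfl

/-- the number of the m-th marked element is locally constant along a continuous map into the
coded class -/
theorem pt_locconst {B : Set XM} {c : (ℕ → Bool) → XG F} (hc : Continuous c)
    {W : (ℕ → Bool) → WX} (hW : ∀ α, W α ∈ Dom B) (hWc : ∀ α, Enc (W α) = c α) (m : ℕ) :
    Continuous (fun α => pt (W α) m) := by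
  classical
  refine continuous_discrete_rng.2 fun a => ?_
  have e : (fun α => pt (W α) m) ⁻¹' {a} = (fun α => fun b => (c α).2.2 0 b) ⁻¹'
      {f : ℕ → Bool | f a = true ∧ ((Finset.range a).filter (fun b => f b = true)).card = m} := by
    ext α
    obtain ⟨-, hg, hm⟩ := hW α
    have hr : ∀ b, (c α).2.2 0 b = true ↔ b ∈ range (pt (W α)) := by
      intro b
      rw [range_pt hg, hWc]
      rfl
    have hcard : ∀ k, ((Finset.range (pt (W α) k)).filter
        (fun b => (c α).2.2 0 b = true)).card = k := by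
      intro k
      have e1 : (Finset.range (pt (W α) k)).filter (fun b => (c α).2.2 0 b = true) =
          (Finset.range k).image (pt (W α)) := by
        ext b
        rw [Finset.mem_filter, Finset.mem_range, hr, Finset.mem_image]
        constructor
        · rintro ⟨h1, j, rfl⟩
          exact ⟨j, Finset.mem_range.2 (hm.lt_iff_lt.1 h1), rfl⟩
        · rintro ⟨j, h1, rfl⟩
          exact ⟨hm (Finset.mem_range.1 h1), j, rfl⟩
      rw [e1, Finset.card_image_of_injective _ hm.injective, Finset.card_range]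
    constructor
    · intro h
      have h1 : pt (W α) m = a := h
      subst h1
      exact ⟨(hr _).2 ⟨m, rfl⟩, hcard m⟩
    · rintro ⟨h1, h2⟩
      obtain ⟨k, rfl⟩ := (hr _).1 h1
      have h3 : ((Finset.range (pt (W α) k)).filter
        (fun b => (c α).2.2 0 b = true)).card = m := h2
      rw [hcard k] at h3
      subst h3
      rfl
  rw [e]
  refine IsOpen.preimage ?_ ?_
  · exact (continuous_apply 0).comp (continuous_snd.comp (continuous_snd.comp hc))
  · -- an open condition on finitely many coordinates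
    rw [isOpen_pi_iff]
    intro f hf
    refine ⟨Finset.range (a + 1), fun i => {f i}, fun i _ => ⟨isOpen_discrete _, rfl⟩, ?_⟩
    intro g hgm
    have h1 : ∀ i, i ≤ a → g i = f i := fun i hi =>
      hgm i (Finset.mem_coe.2 (Finset.mem_range.2 (Nat.lt_succ_of_le hi)))
    refine ⟨by rw [h1 a le_rfl]; exact hf.1, ?_⟩
    rw [← hf.2]
    congr 1
    apply Finset.filter_congr
    intro b hb
    rw [h1 b (Finset.mem_range.1 hb).le]

theorem cont_dep {X Y : Type} [TopologicalSpace X] [TopologicalSpace Y] {f : X → ℕ}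
    (hf : Continuous f) {g : ℕ → X → Y} (hg : ∀ n, Continuous (g n)) :
    Continuous (fun x => g (f x) x) := by
  rw [continuous_iff_continuousAt]
  intro x
  refine ((hg (f x)).continuousAt).congr ?_
  have h1 : ∀ᶠ y in nhds x, f y = f x :=
    (isOpen_discrete ({f x} : Set ℕ)).preimage hf |>.mem_nhds rfl
  filter_upwards [h1] with y hy
  rw [hy]

/-- isomorphic structures have isomorphic codes -/
theorem Enc_iso {w w' : WX} (hw : Good w) (hw' : Good w') {σ : Equiv.Perm ℕ}
    (h : IsoM σ w.1 w'.1) : ∃ τ : Equiv.Perm ℕ, Isom τ (Enc w) (Enc w') := by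
  let τ : Equiv.Perm ℕ :=
    { toFun := fun a => sS w' ((tT w a).1, σ (tT w a).2)
      invFun := fun b => sS w ((tT w' b).1, σ.symm (tT w' b).2)
      left_inv := fun a => by
        simp only [hw'.ts, Equiv.symm_apply_apply]
        exact hw.st a
      right_inv := fun b => by
        simp only [hw.ts, Equiv.apply_symm_apply]
        exact hw'.st b }
  have hτ : ∀ a, tT w' (τ a) = ((tT w a).1, σ (tT w a).2) := fun a => hw'.ts _
  refine ⟨τ, fun a b => ?_, fun γ a => ?_, fun i a => ?_⟩
  · rw [Bool.eq_iff_iff, Enc_lt, Enc_lt, hτ, hτ]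
    exact RR_iso h (tT w a) (tT w b)
  · rw [Enc_act, hτ]
    show _ = sS w' ((tT w ((Enc w).2.1 γ a)).1, σ (tT w ((Enc w).2.1 γ a)).2)
    rw [Enc_act, hw.ts]
  · rcases i with _ | i
    · rw [Bool.eq_iff_iff, Enc_zero, Enc_zero, hτ]
    · rw [Enc_succ, Enc_succ, hτ]
      exact h.2.2 i _

/-- Perfect-set Vaught dichotomy for linear orders with monotone and antitone relations. -/
theorem out (B : Set XM) (hB : MeasurableSet B) (hM : ∀ x ∈ B, MA x)
    (hi : ∀ x ∈ B, ∀ (y : XM) (σ : Equiv.Perm ℕ), IsoM σ x y → y ∈ B) :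
    (∃ f : ℕ → XM, ∀ x ∈ B, ∃ (n : ℕ) (σ : Equiv.Perm ℕ), IsoM σ (f n) x) ∨
    (∃ c : (ℕ → Bool) → XM, Continuous c ∧ (∀ a, c a ∈ B) ∧
      ∀ a b, (∃ σ : Equiv.Perm ℕ, IsoM σ (c a) (c b)) → a = b) := by
  classical
  have hT : ∀ y ∈ BB B, Pool.Agent.Y558.MB.TW ch y := by
    rintro _ ⟨w, ⟨hwB, hw, -⟩, rfl⟩
    exact Enc_TW hw (hM _ hwB)
  rcases Pool.Agent.Y558.MB.outB F ch (BB B) (meas_BB hB) hT (inv_BB hi) with ⟨f, hf⟩ | ⟨c, hc, hcB, hcI⟩
  · left
    have hch : ∀ n, ∃ y : XM, ∀ w ∈ Dom B, (∃ σ, Isom σ (f n) (Enc w)) →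
        ∃ σ, IsoM σ y w.1 := by
      intro n
      by_cases h : ∃ w ∈ Dom B, ∃ σ, Isom σ (f n) (Enc w)
      · obtain ⟨w, hw, σ, hσ⟩ := h
        refine ⟨w.1, ?_⟩
        rintro w' hw' ⟨τ, hτ⟩
        exact iso_of_Enc hw.2.1 hw'.2.1 (Isom_trans (Isom_symm hσ) hτ)
      · exact ⟨(fun _ _ => false, fun _ _ _ => false, fun _ _ => false),
          fun w hw hσ => absurd ⟨w, hw, hσ⟩ h⟩
    choose g hg using hch
    refine ⟨g, fun x hx => ?_⟩
    obtain ⟨w, hw, π, hπ⟩ := exists_code hi hx
    obtain ⟨n, σ, hσ⟩ := hf (Enc w) ⟨w, hw, rfl⟩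
    obtain ⟨τ, hτ⟩ := hg n w hw ⟨σ, hσ⟩
    exact ⟨n, _, IsoM_trans hτ hπ⟩
  · right
    choose W hW hWc using hcB
    refine ⟨fun α => (W α).1, ?_, fun α => (hW α).1, ?_⟩
    · have hp : ∀ m, Continuous (fun α => pt (W α) m) := pt_locconst hc hW hWc
      refine Continuous.prodMk ?_ (Continuous.prodMk ?_ ?_)
      · refine continuous_pi fun m => continuous_pi fun n => ?_
        have e : (fun α => (W α).1.1 m n) = fun α => (c α).1 (pt (W α) m) (pt (W α) n) := by
          funext α
          rw [← hWc, lt_pt (hW α).2.1]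
        rw [e]
        refine cont_dep (hp m) (g := fun j α => (c α).1 j (pt (W α) n)) fun j => ?_
        refine cont_dep (hp n) (g := fun k α => (c α).1 j k) fun k => ?_
        exact (continuous_apply k).comp ((continuous_apply j).comp (continuous_fst.comp hc))
      · refine continuous_pi fun i => continuous_pi fun m => continuous_pi fun n => ?_
        have e : (fun α => (W α).1.2.1 i m n) = fun α =>
            (c α).1 ((c α).2.1 (FreeGroup.of i) (pt (W α) m)) (pt (W α) n) := by
          funext α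
          rw [← hWc, rel_pt (hW α).2.1]
        rw [e]
        have h1 : Continuous (fun α => (c α).2.1 (FreeGroup.of i) (pt (W α) m)) := by
          refine cont_dep (hp m) (g := fun j α => (c α).2.1 (FreeGroup.of i) j) fun j => ?_
          exact (continuous_apply j).comp ((continuous_apply _).comp
            (continuous_fst.comp (continuous_snd.comp hc)))
        refine cont_dep h1 (g := fun j α => (c α).1 j (pt (W α) n)) fun j => ?_
        refine cont_dep (hp n) (g := fun k α => (c α).1 j k) fun k => ?_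
        exact (continuous_apply k).comp ((continuous_apply j).comp (continuous_fst.comp hc))
      · refine continuous_pi fun i => continuous_pi fun m => ?_
        have e : (fun α => (W α).1.2.2 i m) = fun α => (c α).2.2 (i + 1) (pt (W α) m) := by
          funext α
          rw [← hWc, un_pt (hW α).2.1]
        rw [e]
        refine cont_dep (hp m) (g := fun j α => (c α).2.2 (i + 1) j) fun j => ?_
        exact (continuous_apply j).comp ((continuous_apply _).comp
          (continuous_snd.comp (continuous_snd.comp hc)))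
    · rintro a b ⟨σ, hσ⟩
      apply hcI
      -- isomorphic structures have isomorphic codes
      obtain ⟨-, ha, -⟩ := hW a
      obtain ⟨-, hb, -⟩ := hW b
      rw [← hWc, ← hWc]
      exact Enc_iso ha hb hσ

end Pool.Agent.Y558.MT
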